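import Pool.Agent.Work.MP_c20ce7_lab.Interface

set_option autoImplicit false

/-!
# The target side of the base case (Kashiwara-Saito pair)

Block `X` is the theorem `p_X (h1 : Stmt_Y) .. : Stmt_X` in the file `B_X.lean` of this directory, the blocks of the
column `uses` are the hypotheses in this order. Auxiliary lemmas have the prefix `X_`.

`ksM = [1,2] + [1,4] + [2,3] + [2,5] + [3,4] + [4,5]`: the numbers of the boxes of the degrees `1, .., 5` are
`2, 4, 4, 4, 2`. Ranks of the point of the orbit: `x : V_1 → V_2` injective, `V_2 → V_3` and `V_3 → V_4` of rank `3`,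
`V_4 → V_5` surjective, `V_1 → V_3`, `V_3 → V_5`, `V_1 → V_4`, `V_2 → V_5` of rank `1`, `V_2 → V_4` of rank `2`,
`V_1 → V_5` zero.
-/

open MvPolynomial Matrix

noncomputable section

namespace Pool.DM

section Defs

variable {ι : Type} [Fintype ι] [DecidableEq ι]

/-- The generic matrix of `V`. -/
def genM (e : ι → ℤ) : Matrix ι ι (MvPolynomial (Co e) ℂ) := by
  classical exact fun a b => if h : e a = e b + 1 then X ⟨(a, b), h⟩ else 0

/-- The `k × k` minors of the block `V_j → V_(j + n)` of the `n`-th power of the generic matrix. -/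
def minorsG (e : ι → ℤ) (n : ℕ) (j : ℤ) (k : ℕ) : Set (MvPolynomial (Co e) ℂ) :=
  {P | ∃ f g : Fin k → ι, (∀ l, e (f l) = j + n ∧ e (g l) = j) ∧ P = ((genM e ^ n).submatrix f g).det}

/-- The polynomials which vanish on the closure of the orbit of `ksM` (enough of them). -/
def ksClosed (e : ι → ℤ) : Set (MvPolynomial (Co e) ℂ) :=
  minorsG e 2 1 2 ∪ minorsG e 2 2 3 ∪ minorsG e 2 3 2 ∪ minorsG e 4 1 1

/-- Six families of polynomials; one of each family is nonzero at the points of the orbit of `ksM`. -/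
def ksOpen (e : ι → ℤ) : Fin 6 → Set (MvPolynomial (Co e) ℂ) :=
  ![minorsG e 1 1 2, minorsG e 1 2 3, minorsG e 1 3 3, minorsG e 1 4 2, minorsG e 3 1 1, minorsG e 3 2 1]

/-- The vectors of degree `j`. -/
def HD (e : ι → ℤ) (j : ℤ) : Submodule ℂ (ι → ℂ) where
  carrier := {v | ∀ a, v a ≠ 0 → e a = j}
  add_mem' := by
    intro v w hv hw a ha
    by_cases h : v a = 0
    · exact hw a (by simpa [h] using ha)
    · exact hv a h
  zero_mem' := by intro a ha; simp at ha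
  smul_mem' := by
    intro c v hv a ha
    exact hv a (by intro h; simp [h] at ha)

/-- The block `V_j → V_(j + n)` of the `n`-th power. -/
def blk (e : ι → ℤ) (m : Matrix ι ι ℂ) (n : ℕ) (j : ℤ) : Matrix {a : ι // e a = j + n} {a : ι // e a = j} ℂ :=
  fun a b => (m ^ n) a.1 b.1

/-- Generators of the six strings of a point of the orbit of `ksM`, with what is needed for their independence. -/
structure Gens (e : ι → ℤ) (m : Matrix ι ι ℂ) (w w' v v' t s : ι → ℂ) : Prop where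
  dw : w ∈ HD e 1
  dw' : w' ∈ HD e 1
  dv : v ∈ HD e 2
  dv' : v' ∈ HD e 2
  dt : t ∈ HD e 3
  ds : s ∈ HD e 4
  w'1 : m *ᵥ w' ≠ 0
  w'2 : (m ^ 2) *ᵥ w' = 0
  w3 : (m ^ 3) *ᵥ w ≠ 0
  w4 : (m ^ 4) *ᵥ w = 0
  v3 : (m ^ 3) *ᵥ v ≠ 0
  v'1 : m *ᵥ v' ≠ 0
  v'2 : (m ^ 2) *ᵥ v' = 0
  t2 : (m ^ 2) *ᵥ t = 0
  t0 : ∀ u ∈ HD e 2, m *ᵥ u ≠ t
  s1 : ∀ c : ℂ, m *ᵥ s ≠ c • ((m ^ 3) *ᵥ v)
  k2 : ∀ u ∈ HD e 2, m *ᵥ u = 0 → ∃ c : ℂ, u = c • (m *ᵥ w')
  k3 : ∀ u ∈ HD e 3, m *ᵥ u = 0 → ∃ c : ℂ, u = c • (m *ᵥ v')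

end Defs

/-- **MIN** (80 lines). Minors and rank. PROOF. (1) If the rank is at least `k` there are `k` independent rows, and
`k` independent columns of the matrix of these rows. (2) A nonzero minor gives `k` independent columns. -/
def Stmt_MIN : Prop :=
  ∀ (m n : Type) [Fintype m] [DecidableEq m] [Fintype n] [DecidableEq n] (A : Matrix m n ℂ) (k : ℕ),
    ((∀ (f : Fin (k + 1) → m) (g : Fin (k + 1) → n), (A.submatrix f g).det = 0) → A.rank ≤ k) ∧
    ((∃ (f : Fin k → m) (g : Fin k → n), (A.submatrix f g).det ≠ 0) → k ≤ A.rank)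

/-- **RNK** (90 lines). Dimensions of the graded pieces of kernels and images. PROOF. `HD e j` is the space of the
functions on `{a // e a = j}`; `m ^ n` maps it to `HD e (j + n)` by the matrix `blk`; rank-nullity. -/
def Stmt_RNK : Prop :=
  ∀ (ι : Type) [Fintype ι] [DecidableEq ι] (e : ι → ℤ) (m : Matrix ι ι ℂ), Deg e 1 m → ∀ (n : ℕ) (j : ℤ),
    (∀ v ∈ HD e j, (m ^ n) *ᵥ v ∈ HD e (j + n)) ∧
    Module.finrank ℂ (HD e j) = Fintype.card {a : ι // e a = j} ∧
    Module.finrank ℂ ((HD e j).map (m ^ n).mulVecLin) = (blk e m n j).rank ∧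
    Module.finrank ℂ (HD e j ⊓ LinearMap.ker (m ^ n).mulVecLin : Submodule ℂ (ι → ℂ)) + (blk e m n j).rank =
      Fintype.card {a : ι // e a = j}

/-- **EVM** (50 lines). Evaluation of the minors of the generic matrix. -/
def Stmt_EVM : Prop :=
  ∀ (ι : Type) [Fintype ι] [DecidableEq ι] (e : ι → ℤ) (x : Co e → ℂ) (n : ℕ) (j : ℤ) (k : ℕ),
    ((∀ P ∈ minorsG e n j k, eval x P = 0) ↔
      ∀ (f : Fin k → {a : ι // e a = j + n}) (g : Fin k → {a : ι // e a = j}),
        ((blk e (mat e x) n j).submatrix f g).det = 0)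

/-- **GEN** (140 lines, uses MIN RNK EVM MPT). The generators. Cards of the fibres: `2, 4, 4, 4, 2` in the degrees
`1, .., 5` (from the boxing; all other fibres are empty).
PROOF. `m = mat e x`, `D j = HD e j`. By MIN, EVM, RNK: `m` injective on `D 1` (rank `2`); `dim (ker m ∩ D 2) ≤ 1`,
`dim (ker m ∩ D 3) ≤ 1` (rank `≥ 3`, card `4`); `m (D 4) = D 5` (rank `2 = card`); `m ^ 2` on `D 1`: rank `≤ 1`, so there
is `0 ≠ w' ∈ D 1` with `m ^ 2 w' = 0`; `m ^ 2` on `D 2`: rank `≤ 2`, so `dim (ker m ^ 2 ∩ D 2) ≥ 2 > 1` and there is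
`v' ∈ D 2` with `m ^ 2 v' = 0`, `m v' ≠ 0`; `m ^ 2` on `D 3`: rank `≤ 1`, so `dim (ker m ^ 2 ∩ D 3) ≥ 3`;
`m ^ 3 ≠ 0` on `D 1` gives `w`, on `D 2` gives `v`; `m ^ 4 = 0` on `D 1` (columns; rows of degree `5`, the other rows are
zero by the degree).
`t`: if `ker m ^ 2 ∩ D 3 ⊆ m (D 2)`: `m w' ∈ ker m ∩ D 2` is nonzero, so `dim m (D 2) ≤ 3` and equality holds, so
`m ^ 2` vanishes on `m (D 2)`, against `m ^ 3 v ≠ 0`. So there is `t ∈ D 3`, `m ^ 2 t = 0`, `t ∉ m (D 2)`.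
`s`: `m ^ 2 (D 3)` has dimension `≤ 1` and contains `m ^ 3 v ≠ 0`, so it is `ℂ • m ^ 3 v`; `D 5` has dimension `2`, so
there is `y ∈ D 5` outside it, `y = m s`.
`k2`: `ker m ∩ D 2` has dimension `≤ 1` and contains `m w' ≠ 0` (`m` injective on `D 1`). `k3`: `ker m ∩ D 3` contains
`m v' ≠ 0`. -/
def Stmt_GEN : Prop :=
  ∀ (ι : Type) [Fintype ι] [DecidableEq ι] (e : ι → ℤ) (sg : ι → Fin 6), Boxing e ksM sg → ∀ x : Co e → ℂ,
    (∀ P ∈ ksClosed e, eval x P = 0) → (∀ k : Fin 6, ∃ P ∈ ksOpen e k, eval x P ≠ 0) →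
    ∃ w w' v v' t s, Gens e (mat e x) w w' v v' t s

/-- **IND** (150 lines, uses MPT). From the generators to the orbit.
PROOF. `gen = ![w', w, v', v, t, s]`, `B a = m ^ (e a - (ksM (sg a)).1).toNat *ᵥ gen (sg a)` for the boxes `a`,
`G a b = B b a`. `B b ∈ HD e (e b)`, so `G` has degree `0`. `m * G = G * smat e sg`: the image of `B (k, j)` under `m` is
`B (k, j + 1)`, or `0` if `j` is the last degree (`m ^ 2 w' = 0`, `m ^ 4 w = 0`, `m ^ 2 v' = 0`, `m ^ 2 t = 0`; `m ^ 4 v` and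
`m ^ 2 s` have degree `6` and are zero). LINEAR INDEPENDENCE of the columns, degree by degree:
(1) `α w + β w' = 0`: apply `m ^ 3`. (2) `α m w + β m w' + γ v + δ v' = 0`: `m ^ 3` gives `γ = 0` (`m ^ 4 w = 0`), `m ^ 2`
gives `α = 0`, `m` gives `δ = 0`, then `β = 0`. (3) `α m ^ 2 w + γ m v + δ m v' + τ t = 0`: `τ = 0` by `t0`;
`α m w + γ v + δ v' ∈ ker m` is `c m w'` by `k2`; (2). (4) `α m ^ 3 w + γ m ^ 2 v + τ m t + σ s = 0`: apply `m`:
`γ m ^ 3 v + σ m s = 0` so `σ = 0`, `γ = 0` by `s1`; `α m ^ 2 w + τ t ∈ ker m` is `c m v'` by `k3`, so `τ = 0` by `t0`, and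
`m (α m w - c v') = 0`, `k2`, (2) give `α = 0`. (5) `m ^ 3 v`, `m s`: `s1`. So `G` is invertible (square matrix with
independent columns); its inverse has degree `0` (the degree `0` part of the inverse is also an inverse). -/
def Stmt_IND : Prop :=
  ∀ (ι : Type) [Fintype ι] [DecidableEq ι] (e : ι → ℤ) (sg : ι → Fin 6), Boxing e ksM sg → ∀ (x : Co e → ℂ)
    (w w' v v' t s : ι → ℂ), Gens e (mat e x) w w' v v' t s → x ∈ orbN e ksM

/-- **EXP** (helper29). A function which is not locally nilpotent is nonzero at a point of the support. -/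
def Stmt_EXP : Prop :=
  ∀ (σ : Type) [Fintype σ] [DecidableEq σ] (L : Type) [AddCommGroup L] [Module ℂ L]
    (W : WMod σ L) (φ : MvPolynomial σ ℂ), W.Simple → ¬ LocNil (W.x φ) → ∃ x0, eval x0 φ ≠ 0 ∧ W.InCh x0 0

/-- **TG** (90 lines, uses GEN IND EXP SCH HST STD). The support.
PROOF. Let `φ` be the product of six functions, one of each family, not locally nilpotent. In a simple module a function
is locally nilpotent or injective (`WMod.nilp_or_inj`, dm90/T6), so products of functions which are not locally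
nilpotent are not locally nilpotent. KEY: if `ψ` is not locally nilpotent, EXP for `ψ φ` gives `x0` with `ψ(x0) ≠ 0`,
`φ(x0) ≠ 0`, `(x0, 0)` in `Ch`; by SCH the functions of `ksClosed` vanish at `x0`; GEN and IND: `x0 ∈ orbN e ksM`.
NilOn: if `g` vanishes on the orbit and is not locally nilpotent, KEY for `ψ = g` is a contradiction. SuppEq: let `g` be
locally nilpotent and `x` in the orbit; KEY for `ψ = 1` gives `x0` in the orbit with `(x0, 0)` in `Ch`; `x` and `x0` are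
conjugate (STD), so by HST `(x, 0)` is in `Ch` and `g(x) = 0` by SCH. -/
def Stmt_TG : Prop :=
  ∀ (ι : Type) [Fintype ι] [DecidableEq ι] (e : ι → ℤ) (L : Type) [AddCommGroup L] [Module ℂ L]
    (W : WMod (Co e) L), W.Simple → W.Equivariant → (∃ sg : ι → Fin 6, Boxing e ksM sg) →
    (∀ P ∈ ksClosed e, LocNil (W.x P)) → (∀ k : Fin 6, ∃ P ∈ ksOpen e k, ¬ LocNil (W.x P)) →
    W.NilOn (orbN e ksM) ∧ W.SuppEq (orbN e ksM)

/-- **TN** (50 lines, uses STD HST MPT). A label can be tested over one box matrix. -/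
def Stmt_TN : Prop :=
  ∀ (ι κ : Type) [Fintype ι] [DecidableEq ι] (e : ι → ℤ) (L : Type) [AddCommGroup L] [Module ℂ L]
    (W : WMod (Co e) L) (N : κ → Seg), W.Simple → W.Equivariant → ∀ sg : ι → κ, Boxing e N sg →
    (∀ ξ, smat e sg * ymat e ξ = ymat e ξ * smat e sg → W.InCh (ptOf e (smat e sg)) ξ) → W.Lab N

/-- **OW2** (helper28). The own label follows from the support. -/
def Stmt_OW2 : Prop :=
  ∀ (ι κ : Type) [Fintype ι] [DecidableEq ι] (e : ι → ℤ) (L : Type) [AddCommGroup L] [Module ℂ L]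
    (W : WMod (Co e) L) (M : κ → Seg), W.Simple → W.Equivariant → W.SuppEq (orbN e M) → W.Lab M

/-- **SRC** (helper42, helper44, helper69, helper77, helper82). The source side: the module of the chart. -/
def Stmt_SRC : Prop :=
  ∃ (ι : Type) (_ : Fintype ι) (_ : DecidableEq ι) (e : ι → ℤ) (L : Type) (_ : AddCommGroup L) (_ : Module ℂ L)
    (W : WMod (Co e) L) (sgM : ι → Fin 6) (sgN : ι → Fin 8), Boxing e ksM sgM ∧ Boxing e ksN sgN ∧
      W.Simple ∧ W.Growth ∧ W.Equivariant ∧ (∀ P ∈ ksClosed e, LocNil (W.x P)) ∧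
      (∀ k : Fin 6, ∃ P ∈ ksOpen e k, ¬ LocNil (W.x P)) ∧
      ∀ ξ, smat e sgN * ymat e ξ = ymat e ξ * smat e sgN → W.InCh (ptOf e (smat e sgN)) ξ

/-- **BAS** (30 lines, uses SRC TG TN OW2). -/
def Stmt_BAS : Prop := Stmt_SRC → Stmt_BASE

end Pool.DM
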