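import Pool.Agent.Work.MP_c20ce7_tg.Interface

set_option autoImplicit false

open MvPolynomial Matrix

noncomputable section

namespace Pool.DM

theorem p_BAS (hTG : Stmt_TG) (hTN : Stmt_TN) (hOW : Stmt_OW2) : Stmt_BAS := by
  rintro ⟨ι, i1, i2, e, L, i3, i4, W, sgM, sgN, hM, hN, hS, hG, hE, hC, hO, hX⟩
  obtain ⟨h1, h2⟩ := hTG ι e L W hS hE ⟨sgM, hM⟩ hC hO
  exact ⟨ι, i1, i2, e, L, i3, i4, W,
    { simple := hS, growth := hG, equi := hE, nilOn := h1, labM := hOW ι (Fin 6) e L W ksM hS hE h2,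
      labN := hTN ι (Fin 8) e L W ksN hS hE sgN hN hX, exM := ⟨sgM, hM⟩, exN := ⟨sgN, hN⟩ }⟩

end Pool.DM
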