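import Pool.Agent.Work.MP_c20ce7_tg.Interface

set_option autoImplicit false

/-! # Block EVM: evaluation of the minors of the generic matrix -/

open MvPolynomial Matrix

noncomputable section

namespace Pool.DM

theorem EVM_map {ι : Type} [Fintype ι] [DecidableEq ι] (e : ι → ℤ) (x : Co e → ℂ) :
    (genM e).map (eval x) = mat e x := by
  classical
  ext a b
  rw [Matrix.map_apply]
  unfold genM mat
  by_cases h : e a = e b + 1
  · simp only [h, dite_true, eval_X]
  · simp only [h, dite_false, map_zero]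

theorem EVM_pow {ι : Type} [Fintype ι] [DecidableEq ι] (e : ι → ℤ) (x : Co e → ℂ) (n : ℕ) :
    (genM e ^ n).map (eval x) = mat e x ^ n := by
  rw [← EVM_map e x]
  exact Matrix.map_pow (genM e) (eval x) n

theorem EVM_det {ι : Type} [Fintype ι] [DecidableEq ι] (e : ι → ℤ) (x : Co e → ℂ) (n k : ℕ)
    (f g : Fin k → ι) :
    eval x (((genM e ^ n).submatrix f g).det) = ((mat e x ^ n).submatrix f g).det := by
  rw [RingHom.map_det, ← EVM_pow e x n]
  rfl

theorem p_EVM : Stmt_EVM := by
  intro ι _ _ e x n j k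
  constructor
  · intro h f g
    have h1 := h _ ⟨fun l => (f l).1, fun l => (g l).1, fun l => ⟨(f l).2, (g l).2⟩, rfl⟩
    rw [EVM_det] at h1
    exact h1
  · rintro h P ⟨f, g, hfg, rfl⟩
    rw [EVM_det]
    exact h (fun l => ⟨f l, (hfg l).1⟩) (fun l => ⟨g l, (hfg l).2⟩)

end Pool.DM
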