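import Pool.Agent.Work.MP_c20ce7_tg.Interface

set_option autoImplicit false

open MvPolynomial Matrix

noncomputable section

namespace Pool.DM

/-- The number of elements of the fibres of `e`. -/
theorem GEN_card {ι : Type} [Fintype ι] [DecidableEq ι] {e : ι → ℤ} {sg : ι → Fin 6} (hB : Boxing e ksM sg)
    (j : ℤ) : Fintype.card {a : ι // e a = j} =
      (Finset.univ.filter fun k : Fin 6 => (ksM k).1 ≤ j ∧ j ≤ (ksM k).2).card := by
  rw [← Fintype.card_coe]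
  refine Fintype.card_congr (Equiv.ofBijective (fun a => ⟨sg a.1, ?_⟩) ⟨?_, ?_⟩)
  · rw [Finset.mem_filter]
    have h := hB.mem a.1
    rw [a.2] at h
    exact ⟨Finset.mem_univ _, h⟩
  · intro a b h
    exact Subtype.ext (hB.inj a.1 b.1 (congrArg Subtype.val h) (a.2.trans b.2.symm))
  · rintro ⟨k, hk⟩
    rw [Finset.mem_filter] at hk
    obtain ⟨a, ha, ha2⟩ := hB.ex k j hk.2.1 hk.2.2
    exact ⟨⟨a, ha2⟩, Subtype.ext ha⟩

/-- A subspace of dimension at most one with a nonzero element `v`. -/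
theorem GEN_line {V : Type} [AddCommGroup V] [Module ℂ V] [FiniteDimensional ℂ V] {S : Submodule ℂ V}
    (hS : Module.finrank ℂ S ≤ 1) {v : V} (hv : v ∈ S) (hv0 : v ≠ 0) : ∀ u ∈ S, ∃ c : ℂ, u = c • v := by
  intro u hu
  have h1 : Submodule.span ℂ {v} ≤ S := by
    rw [Submodule.span_singleton_le_iff_mem]; exact hv
  have h2 : Module.finrank ℂ S ≤ Module.finrank ℂ (Submodule.span ℂ {v}) := by
    rw [finrank_span_singleton hv0]; exact hS
  have h3 := Submodule.eq_of_le_of_finrank_le h1 h2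
  rw [← h3, Submodule.mem_span_singleton] at hu
  obtain ⟨c, hc⟩ := hu
  exact ⟨c, hc.symm⟩

/-- A subspace which is not contained in a subspace of smaller dimension. -/
theorem GEN_ex {V : Type} [AddCommGroup V] [Module ℂ V] [FiniteDimensional ℂ V] {S T : Submodule ℂ V}
    (h : Module.finrank ℂ T < Module.finrank ℂ S) : ∃ v ∈ S, v ∉ T := by
  by_contra hcon
  push Not at hcon
  exact absurd (Submodule.finrank_mono (show S ≤ T from hcon)) (not_le.2 h)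

/-- GEN. -/
theorem p_GEN (h1 : Stmt_MIN) (h2 : Stmt_RNK) (h3 : Stmt_EVM) (h4 : Stmt_MPT) : Stmt_GEN := by
  intro ι _ _ e sg hB x hcl hop
  obtain ⟨m, hmx⟩ : ∃ m, m = mat e x := ⟨_, rfl⟩
  rw [← hmx]
  have hm : Deg e 1 m := by rw [hmx]; exact ((h4 ι e).2.2.1 x).1
  -- the cards
  have c1 : Fintype.card {a : ι // e a = 1} = 2 := by rw [GEN_card hB]; decide
  have c2 : Fintype.card {a : ι // e a = 2} = 4 := by rw [GEN_card hB]; decide
  have c3 : Fintype.card {a : ι // e a = 3} = 4 := by rw [GEN_card hB]; decide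
  have c4 : Fintype.card {a : ι // e a = 4} = 4 := by rw [GEN_card hB]; decide
  have c5 : Fintype.card {a : ι // e a = 5} = 2 := by rw [GEN_card hB]; decide
  -- the ranks
  have up : ∀ (n : ℕ) (j : ℤ) (k : ℕ), minorsG e n j (k + 1) ⊆ ksClosed e → (blk e m n j).rank ≤ k := by
    intro n j k hk
    have h5 := (h3 ι e x n j (k + 1)).1 (fun P hP => hcl P (hk hP))
    rw [hmx]
    exact (h1 _ _ (blk e (mat e x) n j) k).1 h5
  have lo : ∀ (n : ℕ) (j : ℤ) (k : ℕ) (i : Fin 6), ksOpen e i = minorsG e n j k → k ≤ (blk e m n j).rank := by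
    intro n j k i hi
    obtain ⟨P, hP, hP0⟩ := hop i
    rw [hi] at hP
    have h5 : ¬ ∀ (f : Fin k → {a : ι // e a = j + n}) (g : Fin k → {a : ι // e a = j}),
        ((blk e (mat e x) n j).submatrix f g).det = 0 := fun h6 => hP0 ((h3 ι e x n j k).2 h6 P hP)
    push Not at h5
    rw [hmx]
    exact (h1 _ _ (blk e (mat e x) n j) k).2 h5
  have r21 : (blk e m 2 1).rank ≤ 1 := up 2 1 1 (fun P hP => Or.inl (Or.inl (Or.inl hP)))
  have r22 : (blk e m 2 2).rank ≤ 2 := up 2 2 2 (fun P hP => Or.inl (Or.inl (Or.inr hP)))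
  have r23 : (blk e m 2 3).rank ≤ 1 := up 2 3 1 (fun P hP => Or.inl (Or.inr hP))
  have r41 : (blk e m 4 1).rank ≤ 0 := up 4 1 0 (fun P hP => Or.inr hP)
  have r11 : 2 ≤ (blk e m 1 1).rank := lo 1 1 2 0 rfl
  have r12 : 3 ≤ (blk e m 1 2).rank := lo 1 2 3 1 rfl
  have r13 : 3 ≤ (blk e m 1 3).rank := lo 1 3 3 2 rfl
  have r14 : 2 ≤ (blk e m 1 4).rank := lo 1 4 2 3 rfl
  have r31 : 1 ≤ (blk e m 3 1).rank := lo 3 1 1 4 rfl
  have r32 : 1 ≤ (blk e m 3 2).rank := lo 3 2 1 5 rfl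
  -- the kernels and images
  have hK : ∀ (n : ℕ) (j : ℤ),
      Module.finrank ℂ (HD e j ⊓ LinearMap.ker (m ^ n).mulVecLin : Submodule ℂ (ι → ℂ)) +
        (blk e m n j).rank = Fintype.card {a : ι // e a = j} := fun n j => (h2 ι e m hm n j).2.2.2
  have hM : ∀ (n : ℕ) (j : ℤ),
      Module.finrank ℂ ((HD e j).map (m ^ n).mulVecLin) = (blk e m n j).rank :=
    fun n j => (h2 ι e m hm n j).2.2.1
  have hD : ∀ (n : ℕ) (j j' : ℤ), j + n = j' → ∀ v ∈ HD e j, (m ^ n) *ᵥ v ∈ HD e j' := by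
    intro n j j' hj v hv
    rw [← hj]
    exact (h2 ι e m hm n j).1 v hv
  have hF : ∀ j : ℤ, Module.finrank ℂ (HD e j) = Fintype.card {a : ι // e a = j} :=
    fun j => (h2 ι e m hm 0 j).2.1
  have hmem : ∀ (n : ℕ) (j : ℤ) (v : ι → ℂ),
      v ∈ (HD e j ⊓ LinearMap.ker (m ^ n).mulVecLin : Submodule ℂ (ι → ℂ)) ↔
        v ∈ HD e j ∧ (m ^ n) *ᵥ v = 0 := by
    intro n j v
    rw [Submodule.mem_inf, LinearMap.mem_ker, Matrix.mulVecLin_apply]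
  have hmap : ∀ (n : ℕ) (j : ℤ) (y : ι → ℂ),
      y ∈ (HD e j).map (m ^ n).mulVecLin ↔ ∃ v ∈ HD e j, (m ^ n) *ᵥ v = y := by
    intro n j y
    rw [Submodule.mem_map]
    simp only [Matrix.mulVecLin_apply]
  have p12 : ∀ v : ι → ℂ, m *ᵥ (m *ᵥ v) = (m ^ 2) *ᵥ v := by
    intro v; rw [Matrix.mulVec_mulVec, pow_two]
  have p23 : ∀ v : ι → ℂ, (m ^ 2) *ᵥ (m *ᵥ v) = (m ^ 3) *ᵥ v := by
    intro v; rw [Matrix.mulVec_mulVec, ← pow_succ]
  have b0 : Module.finrank ℂ (⊥ : Submodule ℂ (ι → ℂ)) = 0 := finrank_bot ℂ _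
  -- injectivity in degree one
  have inj1 : ∀ u ∈ HD e 1, m *ᵥ u = 0 → u = 0 := by
    intro u hu hu0
    have h5 := hK 1 1
    rw [c1] at h5
    have h6 : Module.finrank ℂ (HD e 1 ⊓ LinearMap.ker (m ^ 1).mulVecLin : Submodule ℂ (ι → ℂ)) = 0 := by
      omega
    have h7 := Submodule.finrank_eq_zero.1 h6
    have h8 : u ∈ (HD e 1 ⊓ LinearMap.ker (m ^ 1).mulVecLin : Submodule ℂ (ι → ℂ)) :=
      (hmem 1 1 u).2 ⟨hu, by rw [pow_one]; exact hu0⟩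
    rw [h7, Submodule.mem_bot] at h8
    exact h8
  -- the element w'
  obtain ⟨w', hw', hw'0⟩ : ∃ w' ∈ (HD e 1 ⊓ LinearMap.ker (m ^ 2).mulVecLin : Submodule ℂ (ι → ℂ)),
      w' ∉ (⊥ : Submodule ℂ (ι → ℂ)) := by
    refine GEN_ex ?_
    have h5 := hK 2 1
    rw [c1] at h5
    omega
  rw [hmem] at hw'
  rw [Submodule.mem_bot] at hw'0
  have hw'1 : m *ᵥ w' ≠ 0 := fun h => hw'0 (inj1 w' hw'.1 h)
  have hmw' : m *ᵥ w' ∈ HD e 2 := by
    have h5 := hD 1 1 2 (by norm_num) w' hw'.1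
    rwa [pow_one] at h5
  -- the element v'
  obtain ⟨v', hv', hv'0⟩ : ∃ v' ∈ (HD e 2 ⊓ LinearMap.ker (m ^ 2).mulVecLin : Submodule ℂ (ι → ℂ)),
      v' ∉ (HD e 2 ⊓ LinearMap.ker (m ^ 1).mulVecLin : Submodule ℂ (ι → ℂ)) := by
    refine GEN_ex ?_
    have h5 := hK 2 2
    have h6 := hK 1 2
    rw [c2] at h5 h6
    omega
  rw [hmem] at hv' hv'0
  have hv'1 : m *ᵥ v' ≠ 0 := fun h => hv'0 ⟨hv'.1, by rw [pow_one]; exact h⟩
  have hmv' : m *ᵥ v' ∈ HD e 3 := by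
    have h5 := hD 1 2 3 (by norm_num) v' hv'.1
    rwa [pow_one] at h5
  -- the elements w and v
  obtain ⟨w, hw, hw3⟩ : ∃ w ∈ HD e 1, (m ^ 3) *ᵥ w ≠ 0 := by
    obtain ⟨y, hy, hy0⟩ : ∃ y ∈ (HD e 1).map (m ^ 3).mulVecLin, y ∉ (⊥ : Submodule ℂ (ι → ℂ)) := by
      refine GEN_ex ?_
      rw [hM 3 1]
      omega
    obtain ⟨w, hw, rfl⟩ := (hmap 3 1 y).1 hy
    exact ⟨w, hw, fun h => hy0 (by rw [Submodule.mem_bot]; exact h)⟩
  obtain ⟨v, hv, hv3⟩ : ∃ v ∈ HD e 2, (m ^ 3) *ᵥ v ≠ 0 := by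
    obtain ⟨y, hy, hy0⟩ : ∃ y ∈ (HD e 2).map (m ^ 3).mulVecLin, y ∉ (⊥ : Submodule ℂ (ι → ℂ)) := by
      refine GEN_ex ?_
      rw [hM 3 2]
      omega
    obtain ⟨v, hv, rfl⟩ := (hmap 3 2 y).1 hy
    exact ⟨v, hv, fun h => hy0 (by rw [Submodule.mem_bot]; exact h)⟩
  have hw4 : (m ^ 4) *ᵥ w = 0 := by
    have h5 : Module.finrank ℂ ((HD e 1).map (m ^ 4).mulVecLin) = 0 := by
      rw [hM 4 1]; omega
    have h6 := Submodule.finrank_eq_zero.1 h5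
    have h7 : (m ^ 4) *ᵥ w ∈ (HD e 1).map (m ^ 4).mulVecLin := (hmap 4 1 _).2 ⟨w, hw, rfl⟩
    rwa [h6, Submodule.mem_bot] at h7
  -- the kernels are lines
  have k2 : ∀ u ∈ HD e 2, m *ᵥ u = 0 → ∃ c : ℂ, u = c • (m *ᵥ w') := by
    intro u hu hu0
    have h5 := hK 1 2
    rw [c2] at h5
    refine GEN_line (S := (HD e 2 ⊓ LinearMap.ker (m ^ 1).mulVecLin : Submodule ℂ (ι → ℂ)))
      (by omega) ((hmem 1 2 _).2 ⟨hmw', ?_⟩) hw'1 u ((hmem 1 2 _).2 ⟨hu, ?_⟩)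
    · rw [pow_one, p12]; exact hw'.2
    · rw [pow_one]; exact hu0
  have k3 : ∀ u ∈ HD e 3, m *ᵥ u = 0 → ∃ c : ℂ, u = c • (m *ᵥ v') := by
    intro u hu hu0
    have h5 := hK 1 3
    rw [c3] at h5
    refine GEN_line (S := (HD e 3 ⊓ LinearMap.ker (m ^ 1).mulVecLin : Submodule ℂ (ι → ℂ)))
      (by omega) ((hmem 1 3 _).2 ⟨hmv', ?_⟩) hv'1 u ((hmem 1 3 _).2 ⟨hu, ?_⟩)
    · rw [pow_one, p12]; exact hv'.2
    · rw [pow_one]; exact hu0
  -- the element t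
  obtain ⟨t, ht, ht0⟩ : ∃ t ∈ (HD e 3 ⊓ LinearMap.ker (m ^ 2).mulVecLin : Submodule ℂ (ι → ℂ)),
      t ∉ (HD e 2).map (m ^ 1).mulVecLin := by
    by_contra hcon
    push Not at hcon
    have h5 := hK 2 3
    have h6 := hK 1 2
    have h7 := hM 1 2
    rw [c3] at h5
    rw [c2] at h6
    have h8 : 1 ≤ Module.finrank ℂ (HD e 2 ⊓ LinearMap.ker (m ^ 1).mulVecLin : Submodule ℂ (ι → ℂ)) := by
      rw [Nat.one_le_iff_ne_zero]
      intro h9
      have h10 : m *ᵥ w' ∈ (HD e 2 ⊓ LinearMap.ker (m ^ 1).mulVecLin : Submodule ℂ (ι → ℂ)) :=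
        (hmem 1 2 _).2 ⟨hmw', by rw [pow_one, p12]; exact hw'.2⟩
      rw [Submodule.finrank_eq_zero.1 h9, Submodule.mem_bot] at h10
      exact hw'1 h10
    have h9 := Submodule.eq_of_le_of_finrank_le
      (show (HD e 3 ⊓ LinearMap.ker (m ^ 2).mulVecLin : Submodule ℂ (ι → ℂ)) ≤
        (HD e 2).map (m ^ 1).mulVecLin from hcon) (by omega)
    have h10 : m *ᵥ v ∈ (HD e 2).map (m ^ 1).mulVecLin := (hmap 1 2 _).2 ⟨v, hv, by rw [pow_one]⟩
    rw [← h9, hmem, p23] at h10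
    exact hv3 h10.2
  rw [hmem] at ht
  have ht1 : ∀ u ∈ HD e 2, m *ᵥ u ≠ t := by
    intro u hu hut
    exact ht0 ((hmap 1 2 t).2 ⟨u, hu, by rw [pow_one]; exact hut⟩)
  -- the element s
  obtain ⟨y, hy, hy0⟩ : ∃ y ∈ HD e 5, y ∉ Submodule.span ℂ {(m ^ 3) *ᵥ v} := by
    refine GEN_ex ?_
    rw [finrank_span_singleton hv3, hF 5, c5]
    norm_num
  have hsur : (HD e 4).map (m ^ 1).mulVecLin = HD e 5 := by
    refine Submodule.eq_of_le_of_finrank_le ?_ ?_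
    · intro z hz
      obtain ⟨u, hu, rfl⟩ := (hmap 1 4 z).1 hz
      exact hD 1 4 5 (by norm_num) u hu
    · rw [hM 1 4, hF 5, c5]; exact r14
  rw [← hsur, hmap] at hy
  obtain ⟨s, hs, hsy⟩ := hy
  rw [pow_one] at hsy
  refine ⟨w, w', v, v', t, s, ?_⟩
  exact {
    dw := hw
    dw' := hw'.1
    dv := hv
    dv' := hv'.1
    dt := ht.1
    ds := hs
    w'1 := hw'1
    w'2 := hw'.2
    w3 := hw3
    w4 := hw4
    v3 := hv3
    v'1 := hv'1
    v'2 := hv'.2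
    t2 := ht.2
    t0 := ht1
    s1 := by
      intro c hc
      apply hy0
      rw [Submodule.mem_span_singleton]
      exact ⟨c, by rw [← hc, hsy]⟩
    k2 := k2
    k3 := k3 }

end Pool.DM
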