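import Pool.Agent.Work.MP_c20ce7_tg.Interface

/-! Block IND (helper23): from the generators to the orbit. -/

set_option autoImplicit false

open MvPolynomial Matrix

noncomputable section

namespace Pool.DM

theorem IND_HD {ι : Type} [Fintype ι] [DecidableEq ι] {e : ι → ℤ} {m : Matrix ι ι ℂ} (hm : Deg e 1 m) {j : ℤ}
    {v : ι → ℂ} (hv : v ∈ HD e j) : m *ᵥ v ∈ HD e (j + 1) := by
  intro a ha
  have h1 : ∑ b, m a b * v b ≠ 0 := ha
  obtain ⟨b, _, hb⟩ := Finset.exists_ne_zero_of_sum_ne_zero h1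
  have h2 := hm a b (left_ne_zero_of_mul hb)
  have h3 := hv b (right_ne_zero_of_mul hb)
  rw [h2, h3]

theorem IND_pow {ι : Type} [Fintype ι] [DecidableEq ι] {e : ι → ℤ} {m : Matrix ι ι ℂ} (hm : Deg e 1 m) {j : ℤ}
    {v : ι → ℂ} (hv : v ∈ HD e j) (n : ℕ) : (m ^ n) *ᵥ v ∈ HD e (j + n) := by
  induction n with
  | zero => simpa using hv
  | succ n ih =>
    rw [pow_succ', ← Matrix.mulVec_mulVec]
    have h1 := IND_HD hm ih
    push_cast
    rw [← add_assoc]
    exact h1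

theorem IND_zero {ι : Type} [Fintype ι] [DecidableEq ι] (m : Matrix ι ι ℂ) {u : ι → ℂ} {k : ℕ}
    (h : (m ^ k) *ᵥ u = 0) (n : ℕ) (hn : k ≤ n) : (m ^ n) *ᵥ u = 0 := by
  obtain ⟨l, rfl⟩ := Nat.exists_eq_add_of_le hn
  rw [add_comm, pow_add, ← Matrix.mulVec_mulVec, h, Matrix.mulVec_zero]

section Alg

variable {ι : Type} [Fintype ι] [DecidableEq ι] {e : ι → ℤ} {m : Matrix ι ι ℂ} {w w' v v' t s : ι → ℂ}

omit [Fintype ι] [DecidableEq ι] in
theorem IND_smul {u : ι → ℂ} {c : ℂ} (h : c • u = 0) (hu : u ≠ 0) : c = 0 :=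
  (smul_eq_zero.1 h).resolve_right hu

theorem IND_one (h : Gens e m w w' v v' t s) {α β : ℂ} (h0 : α • w + β • w' = 0) : α = 0 ∧ β = 0 := by
  have T : ∀ n : ℕ, α • ((m ^ n) *ᵥ w) + β • ((m ^ n) *ᵥ w') = 0 := by
    intro n
    have h1 := congrArg (fun u => (m ^ n) *ᵥ u) h0
    simpa [Matrix.mulVec_add, Matrix.mulVec_smul] using h1
  have ha : α = 0 := by
    have h1 := T 3
    rw [IND_zero m h.w'2 3 (by norm_num), smul_zero, add_zero] at h1
    exact IND_smul h1 h.w3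
  refine ⟨ha, ?_⟩
  have h1 := T 1
  rw [ha, zero_smul, zero_add, pow_one] at h1
  exact IND_smul h1 h.w'1

theorem IND_two (h : Gens e m w w' v v' t s) {α β γ δ : ℂ}
    (h0 : α • (m *ᵥ w) + β • (m *ᵥ w') + γ • v + δ • v' = 0) : α = 0 ∧ β = 0 ∧ γ = 0 ∧ δ = 0 := by
  have T : ∀ n : ℕ, α • ((m ^ (n + 1)) *ᵥ w) + β • ((m ^ (n + 1)) *ᵥ w') + γ • ((m ^ n) *ᵥ v) +
      δ • ((m ^ n) *ᵥ v') = 0 := by
    intro n
    have h1 := congrArg (fun u => (m ^ n) *ᵥ u) h0
    simpa [Matrix.mulVec_add, Matrix.mulVec_smul, Matrix.mulVec_mulVec, pow_succ] using h1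
  have hc : γ = 0 := by
    have h1 := T 3
    rw [IND_zero m h.w4 4 (by norm_num), IND_zero m h.w'2 4 (by norm_num), IND_zero m h.v'2 3 (by norm_num),
      smul_zero, smul_zero, smul_zero, add_zero, add_zero, zero_add] at h1
    exact IND_smul h1 h.v3
  have ha : α = 0 := by
    have h1 := T 2
    rw [hc, IND_zero m h.w'2 3 (by norm_num), h.v'2, smul_zero, smul_zero, zero_smul, add_zero, add_zero,
      add_zero] at h1
    exact IND_smul h1 h.w3
  have hd : δ = 0 := by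
    have h1 := T 1
    rw [hc, ha, IND_zero m h.w'2 2 (by norm_num), smul_zero, zero_smul, zero_smul, add_zero, add_zero,
      zero_add, pow_one] at h1
    exact IND_smul h1 h.v'1
  refine ⟨ha, ?_, hc, hd⟩
  have h1 := T 0
  rw [hc, ha, hd, zero_smul, zero_smul, zero_smul, zero_add, add_zero, add_zero, zero_add, pow_one] at h1
  exact IND_smul h1 h.w'1

theorem IND_three (hm : Deg e 1 m) (h : Gens e m w w' v v' t s) {α γ δ τ : ℂ}
    (h0 : α • ((m ^ 2) *ᵥ w) + γ • (m *ᵥ v) + δ • (m *ᵥ v') + τ • t = 0) :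
    α = 0 ∧ γ = 0 ∧ δ = 0 ∧ τ = 0 := by
  have hu : α • (m *ᵥ w) + γ • v + δ • v' ∈ HD e 2 := by
    refine Submodule.add_mem _ (Submodule.add_mem _ (Submodule.smul_mem _ _ ?_) (Submodule.smul_mem _ _ h.dv))
      (Submodule.smul_mem _ _ h.dv')
    exact IND_HD hm h.dw
  have h1 : m *ᵥ (α • (m *ᵥ w) + γ • v + δ • v') + τ • t = 0 := by
    rw [← h0]
    simp [Matrix.mulVec_add, Matrix.mulVec_smul, Matrix.mulVec_mulVec, pow_two]
  have ht : τ = 0 := by
    by_contra hτ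
    refine h.t0 (-(τ⁻¹) • (α • (m *ᵥ w) + γ • v + δ • v')) (Submodule.smul_mem _ _ hu) ?_
    rw [Matrix.mulVec_smul, eq_neg_of_add_eq_zero_left h1, smul_neg, neg_smul, neg_neg, smul_smul,
      inv_mul_cancel₀ hτ, one_smul]
  rw [ht, zero_smul, add_zero] at h1
  obtain ⟨c, hc⟩ := h.k2 _ hu h1
  have h2 : α • (m *ᵥ w) + (-c) • (m *ᵥ w') + γ • v + δ • v' = 0 := by
    have h3 : α • (m *ᵥ w) + (-c) • (m *ᵥ w') + γ • v + δ • v' =
        (α • (m *ᵥ w) + γ • v + δ • v') - c • (m *ᵥ w') := by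
      rw [neg_smul]
      abel
    rw [h3, hc, sub_self]
  obtain ⟨ha, -, hc', hd⟩ := IND_two h h2
  exact ⟨ha, hc', hd, ht⟩

theorem IND_five (h : Gens e m w w' v v' t s) {γ σ : ℂ} (h0 : γ • ((m ^ 3) *ᵥ v) + σ • (m *ᵥ s) = 0) :
    γ = 0 ∧ σ = 0 := by
  have hs : σ = 0 := by
    by_contra hσ
    refine h.s1 (-(σ⁻¹ * γ)) ?_
    have h1 : σ • (m *ᵥ s) = -(γ • ((m ^ 3) *ᵥ v)) := eq_neg_of_add_eq_zero_right h0
    rw [neg_smul, mul_smul, ← smul_neg, ← h1, smul_smul, inv_mul_cancel₀ hσ, one_smul]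
  refine ⟨?_, hs⟩
  rw [hs, zero_smul, add_zero] at h0
  exact IND_smul h0 h.v3

theorem IND_four (hm : Deg e 1 m) (h : Gens e m w w' v v' t s) {α γ τ σ : ℂ}
    (h0 : α • ((m ^ 3) *ᵥ w) + γ • ((m ^ 2) *ᵥ v) + τ • (m *ᵥ t) + σ • s = 0) :
    α = 0 ∧ γ = 0 ∧ τ = 0 ∧ σ = 0 := by
  have h1 : γ • ((m ^ 3) *ᵥ v) + σ • (m *ᵥ s) = 0 := by
    have h2 := congrArg (fun u => m *ᵥ u) h0
    have h3 : m *ᵥ (α • ((m ^ 3) *ᵥ w) + γ • ((m ^ 2) *ᵥ v) + τ • (m *ᵥ t) + σ • s) =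
        α • ((m ^ 4) *ᵥ w) + γ • ((m ^ 3) *ᵥ v) + τ • ((m ^ 2) *ᵥ t) + σ • (m *ᵥ s) := by
      simp only [Matrix.mulVec_add, Matrix.mulVec_smul, Matrix.mulVec_mulVec, ← pow_succ', ← pow_two]
    have h4 : m *ᵥ (0 : ι → ℂ) = 0 := Matrix.mulVec_zero m
    have h5 : α • ((m ^ 4) *ᵥ w) + γ • ((m ^ 3) *ᵥ v) + τ • ((m ^ 2) *ᵥ t) + σ • (m *ᵥ s) = 0 := by
      rw [← h3, ← h4]
      exact h2
    rwa [h.w4, h.t2, smul_zero, smul_zero, zero_add, add_zero] at h5
  obtain ⟨hc, hs⟩ := IND_five h h1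
  rw [hc, hs, zero_smul, zero_smul, add_zero, add_zero] at h0
  have hu : α • ((m ^ 2) *ᵥ w) + τ • t ∈ HD e 3 := by
    refine Submodule.add_mem _ (Submodule.smul_mem _ _ ?_) (Submodule.smul_mem _ _ h.dt)
    have h2 := IND_pow hm h.dw 2
    norm_num at h2
    exact h2
  have h2 : m *ᵥ (α • ((m ^ 2) *ᵥ w) + τ • t) = 0 := by
    rw [← h0]
    simp only [Matrix.mulVec_add, Matrix.mulVec_smul, Matrix.mulVec_mulVec, ← pow_succ']
  obtain ⟨c, hc1⟩ := h.k3 _ hu h2
  have h3 : α • ((m ^ 2) *ᵥ w) + (0 : ℂ) • (m *ᵥ v) + (-c) • (m *ᵥ v') + τ • t = 0 := by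
    have h4 : α • ((m ^ 2) *ᵥ w) + (0 : ℂ) • (m *ᵥ v) + (-c) • (m *ᵥ v') + τ • t =
        (α • ((m ^ 2) *ᵥ w) + τ • t) - c • (m *ᵥ v') := by
      rw [neg_smul, zero_smul]
      abel
    rw [h4, hc1, sub_self]
  obtain ⟨ha, -, -, ht⟩ := IND_three hm h h3
  exact ⟨ha, hc, ht, hs⟩

end Alg

/-- The strings. -/
def IND_gen {ι : Type} (w w' v v' t s : ι → ℂ) : Fin 6 → ι → ℂ := ![w', w, v', v, t, s]

/-- The vector of the box `(k, j)`. -/
def IND_V {ι : Type} [Fintype ι] [DecidableEq ι] (m : Matrix ι ι ℂ) (gen : Fin 6 → ι → ℂ) (k : Fin 6) (j : ℤ) :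
    ι → ℂ := (m ^ (j - (ksM k).1).toNat) *ᵥ gen k

theorem IND_lin {ι : Type} [Fintype ι] [DecidableEq ι] {e : ι → ℤ} {m : Matrix ι ι ℂ} {w w' v v' t s : ι → ℂ}
    (hm : Deg e 1 m) (h : Gens e m w w' v v' t s) (C : Fin 6 → ℤ → ℂ)
    (hC : ∀ k j, ¬ ((ksM k).1 ≤ j ∧ j ≤ (ksM k).2) → C k j = 0) (j : ℤ)
    (h0 : ∑ k, C k j • IND_V m (IND_gen w w' v v' t s) k j = 0) : ∀ k, C k j = 0 := by
  intro k
  by_cases hk : (ksM k).1 ≤ j ∧ j ≤ (ksM k).2
  swap
  · exact hC k j hk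
  have hj : 1 ≤ j ∧ j ≤ 5 := by
    have h1 : ∀ l : Fin 6, 1 ≤ (ksM l).1 ∧ (ksM l).2 ≤ 5 := by decide
    replace h1 := h1 k
    exact ⟨h1.1.trans hk.1, hk.2.trans h1.2⟩
  rw [Fin.sum_univ_six] at h0
  obtain ⟨hj1, hj2⟩ := hj
  interval_cases j
  · rw [hC 2 1 (by decide), hC 3 1 (by decide), hC 4 1 (by decide), hC 5 1 (by decide)] at h0
    have h1 : C 1 1 • w + C 0 1 • w' = 0 := by
      simpa [IND_V, IND_gen, ksM, add_comm] using h0
    obtain ⟨a1, a2⟩ := IND_one h h1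
    fin_cases k
    · exact a2
    · exact a1
    · exact hC 2 1 (by decide)
    · exact hC 3 1 (by decide)
    · exact hC 4 1 (by decide)
    · exact hC 5 1 (by decide)
  · rw [hC 4 2 (by decide), hC 5 2 (by decide)] at h0
    have h1 : C 1 2 • (m *ᵥ w) + C 0 2 • (m *ᵥ w') + C 3 2 • v + C 2 2 • v' = 0 := by
      have h2 : C 0 2 • (m *ᵥ w') + C 1 2 • (m *ᵥ w) + C 2 2 • v' + C 3 2 • v = 0 := by
        simpa [IND_V, IND_gen, ksM] using h0
      rw [← h2]
      abel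
    obtain ⟨a1, a2, a3, a4⟩ := IND_two h h1
    fin_cases k
    · exact a2
    · exact a1
    · exact a4
    · exact a3
    · exact hC 4 2 (by decide)
    · exact hC 5 2 (by decide)
  · rw [hC 0 3 (by decide), hC 5 3 (by decide)] at h0
    have h1 : C 1 3 • ((m ^ 2) *ᵥ w) + C 3 3 • (m *ᵥ v) + C 2 3 • (m *ᵥ v') + C 4 3 • t = 0 := by
      have h2 : C 1 3 • ((m ^ 2) *ᵥ w) + C 2 3 • (m *ᵥ v') + C 3 3 • (m *ᵥ v) + C 4 3 • t = 0 := by
        simpa [IND_V, IND_gen, ksM] using h0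
      rw [← h2]
      abel
    obtain ⟨a1, a2, a3, a4⟩ := IND_three hm h h1
    fin_cases k
    · exact hC 0 3 (by decide)
    · exact a1
    · exact a3
    · exact a2
    · exact a4
    · exact hC 5 3 (by decide)
  · rw [hC 0 4 (by decide), hC 2 4 (by decide)] at h0
    have h1 : C 1 4 • ((m ^ 3) *ᵥ w) + C 3 4 • ((m ^ 2) *ᵥ v) + C 4 4 • (m *ᵥ t) + C 5 4 • s = 0 := by
      simpa [IND_V, IND_gen, ksM] using h0
    obtain ⟨a1, a2, a3, a4⟩ := IND_four hm h h1
    fin_cases k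
    · exact hC 0 4 (by decide)
    · exact a1
    · exact hC 2 4 (by decide)
    · exact a2
    · exact a3
    · exact a4
  · rw [hC 0 5 (by decide), hC 1 5 (by decide), hC 2 5 (by decide), hC 4 5 (by decide)] at h0
    have h1 : C 3 5 • ((m ^ 3) *ᵥ v) + C 5 5 • (m *ᵥ s) = 0 := by
      simpa [IND_V, IND_gen, ksM] using h0
    obtain ⟨a1, a2⟩ := IND_five h h1
    fin_cases k
    · exact hC 0 5 (by decide)
    · exact hC 1 5 (by decide)
    · exact hC 2 5 (by decide)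
    · exact a1
    · exact hC 4 5 (by decide)
    · exact a2

/-- The matrix of the vectors of the boxes. -/
def IND_G {ι : Type} [Fintype ι] [DecidableEq ι] (e : ι → ℤ) (sg : ι → Fin 6) (m : Matrix ι ι ℂ)
    (gen : Fin 6 → ι → ℂ) : Matrix ι ι ℂ := fun a b => IND_V m gen (sg b) (e b) a

theorem IND_deg {ι : Type} [Fintype ι] [DecidableEq ι] {e : ι → ℤ} {sg : ι → Fin 6} (hB : Boxing e ksM sg)
    {m : Matrix ι ι ℂ} (hm : Deg e 1 m) {gen : Fin 6 → ι → ℂ} (hg : ∀ k, gen k ∈ HD e (ksM k).1) :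
    Deg e 0 (IND_G e sg m gen) := by
  intro a b hab
  have h1 := IND_pow hm (hg (sg b)) (e b - (ksM (sg b)).1).toNat a hab
  have h2 := (hB.mem b).1
  rw [Int.toNat_of_nonneg (sub_nonneg.2 h2)] at h1
  rw [h1]
  ring

theorem IND_comm {ι : Type} [Fintype ι] [DecidableEq ι] {e : ι → ℤ} {sg : ι → Fin 6} (hB : Boxing e ksM sg)
    {m : Matrix ι ι ℂ} {gen : Fin 6 → ι → ℂ}
    (hz : ∀ k, (m ^ ((ksM k).2 + 1 - (ksM k).1).toNat) *ᵥ gen k = 0) :
    m * IND_G e sg m gen = IND_G e sg m gen * smat e sg := by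
  classical
  ext a b
  have hl : (m * IND_G e sg m gen) a b = ((m ^ ((e b + 1) - (ksM (sg b)).1).toNat) *ᵥ gen (sg b)) a := by
    have h1 : ((e b + 1) - (ksM (sg b)).1).toNat = (e b - (ksM (sg b)).1).toNat + 1 := by
      have h2 := (hB.mem b).1
      omega
    rw [h1, pow_succ', ← Matrix.mulVec_mulVec]
    rfl
  have hr : (IND_G e sg m gen * smat e sg) a b =
      ∑ c, if sg c = sg b ∧ e c = e b + 1 then IND_V m gen (sg b) (e b + 1) a else 0 := by
    rw [Matrix.mul_apply]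
    refine Finset.sum_congr rfl fun c _ => ?_
    unfold smat
    by_cases hc : sg c = sg b ∧ e c = e b + 1
    · rw [if_pos hc, if_pos hc, mul_one]
      unfold IND_G
      rw [hc.1, hc.2]
    · rw [if_neg hc, if_neg hc, mul_zero]
  rw [hl, hr]
  by_cases h1 : e b + 1 ≤ (ksM (sg b)).2
  · obtain ⟨c, hc1, hc2⟩ := hB.ex (sg b) (e b + 1) (by have := (hB.mem b).1; omega) h1
    rw [Finset.sum_eq_single c]
    · rw [if_pos ⟨hc1, hc2⟩]
      rfl
    · intro d _ hd
      rw [if_neg]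
      rintro ⟨h2, h3⟩
      exact hd (hB.inj d c (h2.trans hc1.symm) (h3.trans hc2.symm))
    · intro h2
      exact absurd (Finset.mem_univ c) h2
  · rw [Finset.sum_eq_zero]
    · have h2 : e b = (ksM (sg b)).2 := by
        have := (hB.mem b).2
        omega
      rw [h2, hz]
      rfl
    · intro c _
      rw [if_neg]
      rintro ⟨h2, h3⟩
      apply h1
      rw [← h3, ← h2]
      exact (hB.mem c).2

theorem IND_inj {ι : Type} [Fintype ι] [DecidableEq ι] {e : ι → ℤ} {sg : ι → Fin 6} (hB : Boxing e ksM sg)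
    {m : Matrix ι ι ℂ} {gen : Fin 6 → ι → ℂ} (hd : Deg e 0 (IND_G e sg m gen))
    (hl : ∀ C : Fin 6 → ℤ → ℂ, (∀ k j, ¬ ((ksM k).1 ≤ j ∧ j ≤ (ksM k).2) → C k j = 0) → ∀ j,
      ∑ k, C k j • IND_V m gen k j = 0 → ∀ k, C k j = 0) (c : ι → ℂ) (hc : IND_G e sg m gen *ᵥ c = 0) : c = 0 := by
  classical
  set C : Fin 6 → ℤ → ℂ := fun k j => ∑ b, if sg b = k ∧ e b = j then c b else 0 with hC
  have h1 : ∀ b, C (sg b) (e b) = c b := by
    intro b
    rw [hC]
    show (∑ b', if sg b' = sg b ∧ e b' = e b then c b' else 0) = c b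
    rw [Finset.sum_eq_single b]
    · rw [if_pos ⟨rfl, rfl⟩]
    · intro d _ hd
      rw [if_neg]
      rintro ⟨h2, h3⟩
      exact hd (hB.inj d b h2 h3)
    · intro h2
      exact absurd (Finset.mem_univ b) h2
  have h2 : ∀ k j, ¬ ((ksM k).1 ≤ j ∧ j ≤ (ksM k).2) → C k j = 0 := by
    intro k j hkj
    rw [hC]
    show (∑ b', if sg b' = k ∧ e b' = j then c b' else 0) = 0
    refine Finset.sum_eq_zero fun b _ => ?_
    rw [if_neg]
    rintro ⟨rfl, rfl⟩
    exact hkj (hB.mem b)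
  have h3 : ∀ j, ∑ k, C k j • IND_V m gen k j = 0 := by
    intro j
    have h4 : ∑ k, C k j • IND_V m gen k j = ∑ b, if e b = j then c b • IND_V m gen (sg b) (e b) else 0 := by
      have h5 : ∀ k, C k j • IND_V m gen k j =
          ∑ b, if sg b = k then (if e b = j then c b • IND_V m gen (sg b) (e b) else 0) else 0 := by
        intro k
        rw [hC]
        show (∑ b', if sg b' = k ∧ e b' = j then c b' else 0) • IND_V m gen k j = _
        rw [Finset.sum_smul]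
        refine Finset.sum_congr rfl fun b _ => ?_
        by_cases h6 : sg b = k
        · by_cases h7 : e b = j
          · rw [if_pos ⟨h6, h7⟩, if_pos h6, if_pos h7, h6, h7]
          · rw [if_neg (fun hh => h7 hh.2), if_pos h6, if_neg h7, zero_smul]
        · rw [if_neg (fun hh => h6 hh.1), if_neg h6, zero_smul]
      rw [Finset.sum_congr rfl fun k _ => h5 k, Finset.sum_comm]
      refine Finset.sum_congr rfl fun b _ => ?_
      rw [Finset.sum_ite_eq]
      rw [if_pos (Finset.mem_univ _)]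
    rw [h4]
    funext a
    rw [Finset.sum_apply]
    show _ = (0 : ℂ)
    by_cases ha : e a = j
    · have h5 : (IND_G e sg m gen *ᵥ c) a = 0 := by
        rw [hc]
        rfl
      rw [← h5]
      show _ = ∑ b, IND_G e sg m gen a b * c b
      refine Finset.sum_congr rfl fun b _ => ?_
      by_cases h7 : e b = j
      · rw [if_pos h7]
        show c b * IND_V m gen (sg b) (e b) a = IND_V m gen (sg b) (e b) a * c b
        ring
      · rw [if_neg h7]
        by_cases h8 : IND_G e sg m gen a b = 0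
        · rw [h8, zero_mul]
          rfl
        · exfalso
          apply h7
          rw [← ha, hd a b h8, add_zero]
    · refine Finset.sum_eq_zero fun b _ => ?_
      by_cases h7 : e b = j
      · rw [if_pos h7]
        show c b * IND_G e sg m gen a b = 0
        by_cases h8 : IND_G e sg m gen a b = 0
        · rw [h8, mul_zero]
        · exfalso
          apply ha
          rw [← h7, hd a b h8, add_zero]
      · rw [if_neg h7]
        rfl
  funext b
  rw [← h1 b]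
  exact hl C h2 (e b) (h3 (e b)) (sg b)

theorem IND_inv {ι : Type} [Fintype ι] [DecidableEq ι] {e : ι → ℤ} {G : Matrix ι ι ℂ} (hd : Deg e 0 G)
    (hG : ∀ c : ι → ℂ, G *ᵥ c = 0 → c = 0) : ∃ H : Matrix ι ι ℂ, Deg e 0 H ∧ G * H = 1 ∧ H * G = 1 := by
  classical
  have hu : IsUnit G := by
    rw [← Matrix.mulVec_injective_iff_isUnit]
    intro c c' hcc
    have h1 : G *ᵥ (c - c') = 0 := by
      rw [Matrix.mulVec_sub]
      exact sub_eq_zero.2 hcc
    exact sub_eq_zero.1 (hG _ h1)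
  obtain ⟨K, hK⟩ := hu.exists_right_inv
  set H : Matrix ι ι ℂ := fun a b => if e a = e b then K a b else 0 with hH
  have h1 : G * H = 1 := by
    ext a b
    rw [Matrix.mul_apply]
    by_cases hab : e a = e b
    · rw [← hK, Matrix.mul_apply]
      refine Finset.sum_congr rfl fun c _ => ?_
      by_cases h2 : G a c = 0
      · rw [h2, zero_mul, zero_mul]
      · have h3 := hd a c h2
        show G a c * (if e c = e b then K c b else 0) = G a c * K c b
        rw [if_pos]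
        rw [← hab, h3, add_zero]
    · rw [Matrix.one_apply_ne (fun hh => hab (by rw [hh]))]
      refine Finset.sum_eq_zero fun c _ => ?_
      by_cases h2 : G a c = 0
      · rw [h2, zero_mul]
      · have h3 := hd a c h2
        show G a c * (if e c = e b then K c b else 0) = 0
        rw [if_neg, mul_zero]
        intro h4
        apply hab
        rw [h3, h4, add_zero]
  refine ⟨H, ?_, h1, mul_eq_one_comm.1 h1⟩
  intro a b hab
  by_contra h2
  apply hab
  show (if e a = e b then K a b else 0) = 0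
  rw [if_neg]
  intro h3
  apply h2
  rw [h3, add_zero]

theorem p_IND (h1 : Stmt_MPT) : Stmt_IND := by
  intro ι _ _ e sg hB x w w' v v' t s h
  obtain ⟨-, -, hmat, -, -, -, -, -⟩ := h1 ι e
  have hm : Deg e 1 (mat e x) := (hmat x).1
  have h6 : ∀ u ∈ HD e 6, u = 0 := by
    intro u hu
    funext a
    by_contra h2
    have h3 := hu a h2
    have h4 := (hB.mem a).2
    have h5 : ∀ k : Fin 6, (ksM k).2 ≤ 5 := by decide
    have h7 := h5 (sg a)
    omega
  have hg : ∀ k, IND_gen w w' v v' t s k ∈ HD e (ksM k).1 := by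
    intro k
    fin_cases k
    · exact h.dw'
    · exact h.dw
    · exact h.dv'
    · exact h.dv
    · exact h.dt
    · exact h.ds
  have hz : ∀ k, ((mat e x) ^ ((ksM k).2 + 1 - (ksM k).1).toNat) *ᵥ IND_gen w w' v v' t s k = 0 := by
    intro k
    fin_cases k
    · exact h.w'2
    · exact h.w4
    · exact h.v'2
    · exact h6 _ (IND_pow hm h.dv 4)
    · exact h.t2
    · exact h6 _ (IND_pow hm h.ds 2)
  have hd := IND_deg hB hm hg
  have hc := IND_comm hB hz
  obtain ⟨H, hH, hGH, hHG⟩ := IND_inv hd (IND_inj hB hd (fun C hC j h0 => IND_lin hm h C hC j h0))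
  refine ⟨sg, hB, _, H, hd, hH, hGH, hHG, ?_⟩
  rw [← hc, Matrix.mul_assoc, hGH, Matrix.mul_one]

end Pool.DM
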