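import Pool.Agent.Work.MP_c20ce7_tg.Interface

set_option autoImplicit false

/-!
# Block MIN: minors and rank
-/

open MvPolynomial Matrix

noncomputable section

namespace Pool.DM

theorem MIN_cols {m n : Type} [Fintype m] [Fintype n] (A : Matrix m n ℂ) (k : ℕ)
    (h : k ≤ A.rank) : ∃ g : Fin k → n, LinearIndependent ℂ (fun i => A.col (g i)) := by
  rw [Matrix.rank_eq_finrank_span_cols] at h
  obtain ⟨f, hf, -, hli⟩ := Submodule.exists_fun_fin_finrank_span_eq ℂ (Set.range A.col)
  choose g' hg' using hf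
  refine ⟨fun i => g' (Fin.castLE h i), ?_⟩
  have e : (fun i : Fin k => A.col (g' (Fin.castLE h i))) = f ∘ Fin.castLE h := by
    funext i
    exact hg' (Fin.castLE h i)
  rw [e]
  exact hli.comp _ (Fin.castLE_injective h)

theorem MIN_ex {m n : Type} [Fintype m] [Fintype n] (A : Matrix m n ℂ) (k : ℕ)
    (h : k ≤ A.rank) : ∃ (f : Fin k → m) (g : Fin k → n), (A.submatrix f g).det ≠ 0 := by
  obtain ⟨g, hg⟩ := MIN_cols A k h
  have h1 : ((A.submatrix id g)ᵀ).rank = k := by
    have h2 : LinearIndependent ℂ ((A.submatrix id g)ᵀ).row := hg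
    rw [h2.rank_matrix, Fintype.card_fin]
  obtain ⟨f, hf⟩ := MIN_cols ((A.submatrix id g)ᵀ) k h1.ge
  refine ⟨f, g, ?_⟩
  have h3 : LinearIndependent ℂ (A.submatrix f g).row := hf
  rw [Matrix.linearIndependent_rows_iff_isUnit, Matrix.isUnit_iff_isUnit_det] at h3
  exact h3.ne_zero

theorem p_MIN : Stmt_MIN := by
  intro m n _ _ _ _ A k
  refine ⟨fun h => ?_, fun h => ?_⟩
  · by_contra hk
    obtain ⟨f, g, hfg⟩ := MIN_ex A (k + 1) (by omega)
    exact hfg (h f g)
  · obtain ⟨f, g, hfg⟩ := h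
    have h1 : (A.submatrix f g).rank = k := by
      have h2 : IsUnit (A.submatrix f g) := by
        rw [Matrix.isUnit_iff_isUnit_det]
        exact IsUnit.mk0 _ hfg
      rw [Matrix.rank_of_isUnit _ h2, Fintype.card_fin]
    calc k = (A.submatrix f g).rank := h1.symm
      _ ≤ A.rank := Matrix.rank_submatrix_le A f g

end Pool.DM
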