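import Pool.Agent.Work.MP_c20ce7_tg.Interface

set_option autoImplicit false

/-!
# Block RNK: dimensions of the graded pieces of kernels and images
-/

open MvPolynomial Matrix

noncomputable section

namespace Pool.DM

section

variable {ι : Type} [Fintype ι] [DecidableEq ι]

/-- The `n`-th power of a matrix of degree `1` has the degree `n`. -/
theorem RNK_deg (e : ι → ℤ) (m : Matrix ι ι ℂ) (hm : Deg e 1 m) (n : ℕ) : Deg e (n : ℤ) (m ^ n) := by
  induction n with
  | zero =>
    intro a b h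
    rw [pow_zero] at h
    by_cases hab : a = b
    · subst hab
      simp
    · exact absurd (Matrix.one_apply_ne hab) h
  | succ n ih =>
    intro a b h
    rw [pow_succ, Matrix.mul_apply] at h
    obtain ⟨c, _, hc⟩ := Finset.exists_ne_zero_of_sum_ne_zero h
    have h1 := ih a c (left_ne_zero_of_mul hc)
    have h2 := hm c b (right_ne_zero_of_mul hc)
    push_cast
    omega

/-- Extension by zero. -/
def RNK_E (e : ι → ℤ) (j : ℤ) : ({a : ι // e a = j} → ℂ) →ₗ[ℂ] (ι → ℂ) where
  toFun f := fun a => if h : e a = j then f ⟨a, h⟩ else 0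
  map_add' f g := by
    funext a
    by_cases h : e a = j
    · simp only [Pi.add_apply, dif_pos h]
    · simp only [Pi.add_apply, dif_neg h, add_zero]
  map_smul' c f := by
    funext a
    by_cases h : e a = j
    · simp only [Pi.smul_apply, dif_pos h, RingHom.id_apply]
    · simp only [Pi.smul_apply, dif_neg h, RingHom.id_apply, smul_zero]

theorem RNK_E_pos (e : ι → ℤ) (j : ℤ) (f : {a : ι // e a = j} → ℂ) (a : ι) (h : e a = j) :
    RNK_E e j f a = f ⟨a, h⟩ := dif_pos h

theorem RNK_E_neg (e : ι → ℤ) (j : ℤ) (f : {a : ι // e a = j} → ℂ) (a : ι) (h : ¬ e a = j) :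
    RNK_E e j f a = 0 := dif_neg h

theorem RNK_E_inj (e : ι → ℤ) (j : ℤ) : Function.Injective (RNK_E e j) := by
  intro f g h
  funext a
  have h1 := congrFun h a.1
  rwa [RNK_E_pos e j f a.1 a.2, RNK_E_pos e j g a.1 a.2] at h1

theorem RNK_E_range (e : ι → ℤ) (j : ℤ) : LinearMap.range (RNK_E e j) = HD e j := by
  ext v
  constructor
  · rintro ⟨f, rfl⟩ a ha
    by_contra h
    exact ha (RNK_E_neg e j f a h)
  · intro hv
    refine ⟨fun a => v a.1, ?_⟩
    funext a
    by_cases h : e a = j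
    · rw [RNK_E_pos e j _ a h]
    · rw [RNK_E_neg e j _ a h]
      by_contra h0
      exact h (hv a (Ne.symm h0))

theorem RNK_comm (e : ι → ℤ) (m : Matrix ι ι ℂ) (hm : Deg e 1 m) (n : ℕ) (j : ℤ)
    (f : {a : ι // e a = j} → ℂ) :
    (m ^ n) *ᵥ (RNK_E e j f) = RNK_E e (j + n) (blk e m n j *ᵥ f) := by
  have hd := RNK_deg e m hm n
  funext a
  by_cases h : e a = j + n
  · rw [RNK_E_pos e (j + n) _ a h]
    have h1 : ((m ^ n) *ᵥ (RNK_E e j f)) a = ∑ b, (m ^ n) a b * RNK_E e j f b := rfl
    have h2 : (blk e m n j *ᵥ f) ⟨a, h⟩ = ∑ b : {b : ι // e b = j}, (m ^ n) a b.1 * f b := rfl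
    rw [h1, h2]
    have h3 := Finset.sum_subtype (F := inferInstance) (Finset.univ.filter fun b => e b = j)
      (p := fun b => e b = j) (by simp) (fun b => (m ^ n) a b * RNK_E e j f b)
    have h4 : ∑ b : {b : ι // e b = j}, (m ^ n) a b.1 * f b =
        ∑ b : {b : ι // e b = j}, (m ^ n) a b.1 * RNK_E e j f b.1 := by
      refine Finset.sum_congr rfl ?_
      intro b _
      rw [RNK_E_pos e j f b.1 b.2]
    rw [h4, ← h3]
    symm
    refine Finset.sum_filter_of_ne ?_
    intro b _ hb
    by_contra h5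
    exact (right_ne_zero_of_mul hb) (RNK_E_neg e j f b h5)
  · rw [RNK_E_neg e (j + n) _ a h]
    have h1 : ((m ^ n) *ᵥ (RNK_E e j f)) a = ∑ b, (m ^ n) a b * RNK_E e j f b := rfl
    rw [h1]
    refine Finset.sum_eq_zero ?_
    intro b _
    by_contra h2
    have h3 := hd a b (left_ne_zero_of_mul h2)
    have h4 : e b = j := by
      by_contra h5
      exact (right_ne_zero_of_mul h2) (RNK_E_neg e j f b h5)
    exact h (by rw [h3, h4])

end

theorem p_RNK : Stmt_RNK := by
  intro ι _ _ e m hm n j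
  have hrange : (HD e j).map (m ^ n).mulVecLin =
      (LinearMap.range (blk e m n j).mulVecLin).map (RNK_E e (j + n)) := by
    rw [← RNK_E_range e j, ← LinearMap.range_comp, ← LinearMap.range_comp]
    congr 1
    refine LinearMap.ext fun f => ?_
    exact RNK_comm e m hm n j f
  have hker : (HD e j ⊓ LinearMap.ker (m ^ n).mulVecLin : Submodule ℂ (ι → ℂ)) =
      (LinearMap.ker (blk e m n j).mulVecLin).map (RNK_E e j) := by
    ext v
    constructor
    · rintro ⟨h1, h2⟩
      rw [← RNK_E_range e j] at h1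
      obtain ⟨f, rfl⟩ := h1
      refine ⟨f, ?_, rfl⟩
      have h3 : (m ^ n) *ᵥ (RNK_E e j f) = 0 := h2
      rw [RNK_comm e m hm n j f] at h3
      have h4 : blk e m n j *ᵥ f = 0 := RNK_E_inj e (j + n) (h3.trans (map_zero _).symm)
      exact h4
    · rintro ⟨f, hf, rfl⟩
      refine ⟨?_, ?_⟩
      · rw [← RNK_E_range e j]
        exact ⟨f, rfl⟩
      · have h4 : blk e m n j *ᵥ f = 0 := hf
        change (m ^ n) *ᵥ (RNK_E e j f) = 0
        rw [RNK_comm e m hm n j f, h4, map_zero]
  refine ⟨?_, ?_, ?_, ?_⟩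
  · intro v hv
    rw [← RNK_E_range e j] at hv
    obtain ⟨f, rfl⟩ := hv
    rw [RNK_comm e m hm n j f, ← RNK_E_range e (j + n)]
    exact ⟨_, rfl⟩
  · rw [← RNK_E_range e j, LinearMap.finrank_range_of_inj (RNK_E_inj e j),
      Module.finrank_fintype_fun_eq_card]
  · rw [hrange]
    exact (Submodule.equivMapOfInjective _ (RNK_E_inj e (j + n)) _).finrank_eq.symm
  · rw [hker]
    have h1 := (Submodule.equivMapOfInjective _ (RNK_E_inj e j)
      (LinearMap.ker (blk e m n j).mulVecLin)).finrank_eq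
    have h2 := LinearMap.finrank_range_add_finrank_ker (blk e m n j).mulVecLin
    rw [Module.finrank_fintype_fun_eq_card] at h2
    rw [← h1, ← h2, Matrix.rank]
    exact add_comm _ _

end Pool.DM
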