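import Pool.Agent.Work.MP_c20ce7_tg.Interface
import Pool.Agent.Work.MP_c20ce7_dm90.T6

set_option autoImplicit false

/-!
# Block TG: the support
-/

open MvPolynomial Matrix

noncomputable section

namespace Pool.DM

section TG

variable {σ : Type} [Fintype σ] [DecidableEq σ] {L : Type} [AddCommGroup L] [Module ℂ L]

omit [Fintype σ] in
theorem TG_exists_ne (W : WMod σ L) (hS : W.Simple) : ∃ u : L, u ≠ 0 := by
  obtain ⟨u, -, hu⟩ := Submodule.exists_mem_ne_zero_of_ne_bot hS.2.1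
  exact ⟨u, hu⟩

theorem TG_inj (W : WMod σ L) (hS : W.Simple) (f : MvPolynomial σ ℂ) (hf : ¬ LocNil (W.x f)) :
    Function.Injective (W.x f) := by
  rcases W.nilp_or_inj hS f with h | h
  · exfalso
    apply hf
    intro u
    obtain ⟨k, hk⟩ := h u
    refine ⟨k, ?_⟩
    rw [map_pow] at hk
    exact hk
  · exact h

theorem TG_not_locNil (W : WMod σ L) (hS : W.Simple) (f : MvPolynomial σ ℂ)
    (hf : Function.Injective (W.x f)) : ¬ LocNil (W.x f) := by
  intro hn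
  obtain ⟨u, hu⟩ := TG_exists_ne W hS
  obtain ⟨k, hk⟩ := hn u
  have key : ∀ n : ℕ, ((W.x f) ^ n) u ≠ 0 := by
    intro n
    induction n with
    | zero => simpa using hu
    | succ n ih =>
      rw [pow_succ', Module.End.mul_apply]
      intro h
      exact ih (hf (by rw [h, map_zero]))
  exact key k hk

theorem TG_mul (W : WMod σ L) (hS : W.Simple) (f g : MvPolynomial σ ℂ)
    (hf : ¬ LocNil (W.x f)) (hg : ¬ LocNil (W.x g)) : ¬ LocNil (W.x (f * g)) := by
  apply TG_not_locNil W hS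
  rw [map_mul]
  intro u v huv
  rw [Module.End.mul_apply, Module.End.mul_apply] at huv
  exact TG_inj W hS g hg (TG_inj W hS f hf huv)

theorem TG_prod (W : WMod σ L) (hS : W.Simple) {κ : Type} (s : Finset κ)
    (P : κ → MvPolynomial σ ℂ) (hP : ∀ k, ¬ LocNil (W.x (P k))) :
    ¬ LocNil (W.x (∏ k ∈ s, P k)) := by
  classical
  induction s using Finset.induction_on with
  | empty =>
    apply TG_not_locNil W hS
    rw [Finset.prod_empty, map_one]
    intro u v huv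
    exact huv
  | insert a s ha ih =>
    rw [Finset.prod_insert ha]
    exact TG_mul W hS _ _ (hP a) ih

end TG

theorem TG_deg {ι : Type} [Fintype ι] [DecidableEq ι] (e : ι → ℤ) (g h : Matrix ι ι ℂ)
    (hg : Deg e 0 g) (hh : Deg e 0 h) : ∀ a b, (g * h) a b ≠ 0 → e a = e b := by
  intro a b hab
  rw [Matrix.mul_apply] at hab
  obtain ⟨c, -, hc⟩ := Finset.exists_ne_zero_of_sum_ne_zero hab
  have h1 := hg a c (left_ne_zero_of_mul hc)
  have h2 := hh c b (right_ne_zero_of_mul hc)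
  rw [h1, h2, add_zero, add_zero]

theorem TG_ymat_zero {ι : Type} [Fintype ι] [DecidableEq ι] (e : ι → ℤ) :
    ymat e (0 : Co e → ℂ) = 0 := by
  funext b a
  unfold ymat
  split <;> rfl

theorem p_TG (hGEN : Stmt_GEN) (hIND : Stmt_IND) (hEXP : Stmt_EXP) (hSCH : Stmt_SCH)
    (hHST : Stmt_HST) (hSTD : Stmt_STD) : Stmt_TG := by
  intro ι _ _ e L _ _ W hS hE hsg hcl hop
  obtain ⟨sg, hB⟩ := hsg
  choose P hPm hPn using hop
  have hφ : ¬ LocNil (W.x (∏ k, P k)) := TG_prod W hS Finset.univ P hPn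
  have KEY : ∀ ψ : MvPolynomial (Co e) ℂ, ¬ LocNil (W.x ψ) →
      ∃ x0 ∈ orbN e ksM, eval x0 ψ ≠ 0 ∧ W.InCh x0 0 := by
    intro ψ hψ
    obtain ⟨x0, hx0, hch⟩ := hEXP (Co e) L W (ψ * ∏ k, P k) hS (TG_mul W hS _ _ hψ hφ)
    rw [map_mul] at hx0
    have h1 : eval x0 ψ ≠ 0 := left_ne_zero_of_mul hx0
    have h2 : eval x0 (∏ k, P k) ≠ 0 := right_ne_zero_of_mul hx0
    rw [map_prod] at h2
    have h3 : ∀ k, eval x0 (P k) ≠ 0 := fun k => Finset.prod_ne_zero_iff.1 h2 k (Finset.mem_univ k)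
    obtain ⟨w, w', v, v', t, s, hG⟩ := hGEN ι e sg hB x0
      (fun Q hQ => hSCH (Co e) L W Q hS (hcl Q hQ) x0 0 hch) (fun k => ⟨P k, hPm k, h3 k⟩)
    exact ⟨x0, hIND ι e sg hB x0 w w' v v' t s hG, h1, hch⟩
  have hNil : W.NilOn (orbN e ksM) := by
    intro g hg
    by_contra hcon
    obtain ⟨x0, hx0, hne, -⟩ := KEY g hcon
    exact hne (hg x0 hx0)
  refine ⟨hNil, fun g => ⟨fun hg => hNil g hg, fun hg x hx => ?_⟩⟩
  have h1 : ¬ LocNil (W.x 1) := by
    have := TG_prod W hS (∅ : Finset (Fin 6)) P hPn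
    rwa [Finset.prod_empty] at this
  obtain ⟨x0, hx0, -, hch⟩ := KEY 1 h1
  obtain ⟨g1, k1, dg1, dk1, e1, e1', em1⟩ := (hSTD ι (Fin 6) e ksM sg hB).2 x hx
  obtain ⟨g0, k0, dg0, dk0, e0, e0', em0⟩ := (hSTD ι (Fin 6) e ksM sg hB).2 x0 hx0
  have hin : W.InCh x 0 := by
    refine hHST ι e L W hS hE (g1 * k0) (g0 * k1) ?_ ?_ (TG_deg e _ _ dg1 dk0)
      (TG_deg e _ _ dg0 dk1) x0 0 x 0 hch ?_ ?_
    · calc g1 * k0 * (g0 * k1) = g1 * (k0 * g0) * k1 := by simp only [Matrix.mul_assoc]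
        _ = 1 := by rw [e0', Matrix.mul_one, e1]
    · calc g0 * k1 * (g1 * k0) = g0 * (k1 * g1) * k0 := by simp only [Matrix.mul_assoc]
        _ = 1 := by rw [e1', Matrix.mul_one, e0]
    · rw [em1, em0]
      calc g1 * smat e sg * k1 = g1 * (1 * smat e sg * 1) * k1 := by
            rw [Matrix.one_mul, Matrix.mul_one]
        _ = g1 * ((k0 * g0) * smat e sg * (k0 * g0)) * k1 := by rw [e0']
        _ = g1 * k0 * (g0 * smat e sg * k0) * (g0 * k1) := by simp only [Matrix.mul_assoc]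
    · rw [TG_ymat_zero, Matrix.mul_zero, Matrix.zero_mul]
  exact hSCH (Co e) L W g hS hg x 0 hin

end Pool.DM
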