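import Pool.Agent.Work.MP_c20ce7_tg.Interface

set_option autoImplicit false

open MvPolynomial Matrix

noncomputable section

namespace Pool.DM

theorem p_TN (h1 : Stmt_STD) (h2 : Stmt_HST) (h3 : Stmt_MPT) : Stmt_TN := by
  intro ι κ _ _ e L _ _ W N hS hE sg hsg hch x hx ξ hxi
  obtain ⟨m1, m2, m3, m4, m5, m6, m7, m8⟩ := h3 ι e
  obtain ⟨g, h, hg, hh, hgh, hhg, hxe⟩ := (h1 ι κ e N sg hsg).2 x hx
  have hs : h * mat e x * g = smat e sg := by
    rw [hxe]
    calc h * (g * smat e sg * h) * g = (h * g) * smat e sg * (h * g) := by noncomm_ring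
      _ = smat e sg := by rw [hhg, Matrix.one_mul, Matrix.mul_one]
  have hy : Deg e (-1) (h * ymat e ξ * g) := by
    have a1 := m6 0 (-1) h (ymat e ξ) hh (m4 ξ).1
    have a2 := m6 (0 + -1) 0 _ g a1 hg
    have : (0 : ℤ) + -1 + 0 = -1 := by norm_num
    rw [this] at a2
    exact a2
  have hy2 : ymat e (covOf e (h * ymat e ξ * g)) = h * ymat e ξ * g := m2 _ hy
  have hcom : smat e sg * (h * ymat e ξ * g) = (h * ymat e ξ * g) * smat e sg := by
    rw [← hs]
    calc h * mat e x * g * (h * ymat e ξ * g)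
        = h * (mat e x * (g * h) * ymat e ξ) * g := by noncomm_ring
      _ = h * (mat e x * ymat e ξ) * g := by rw [hgh, Matrix.mul_one]
      _ = h * (ymat e ξ * mat e x) * g := by rw [hxi]
      _ = h * (ymat e ξ * (g * h) * mat e x) * g := by rw [hgh, Matrix.mul_one]
      _ = h * ymat e ξ * g * (h * mat e x * g) := by noncomm_ring
  have key := hch (covOf e (h * ymat e ξ * g)) (by rw [hy2]; exact hcom)
  refine h2 ι e L W hS hE g h hgh hhg ?_ ?_ _ _ x ξ key ?_ ?_
  · intro a b hab
    have := hg a b hab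
    omega
  · intro a b hab
    have := hh a b hab
    omega
  · rw [m1 _ (m5 κ sg)]
    exact hxe
  · rw [hy2]
    calc ymat e ξ = (g * h) * ymat e ξ * (g * h) := by rw [hgh, Matrix.one_mul, Matrix.mul_one]
      _ = g * (h * ymat e ξ * g) * h := by noncomm_ring

end Pool.DM
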