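import Pool.Agent.Work.MP_c20ce7_tg.B_BAS
import Pool.Agent.Work.MP_c20ce7_tg.B_TG
import Pool.Agent.Work.MP_c20ce7_tg.B_TN
import Pool.Agent.Work.MP_c20ce7_tg.B_GEN
import Pool.Agent.Work.MP_c20ce7_tg.B_IND
import Pool.Agent.Work.MP_c20ce7_tg.B_MIN
import Pool.Agent.Work.MP_c20ce7_tg.B_RNK
import Pool.Agent.Work.MP_c20ce7_tg.B_EVM
import Pool.Agent.Work.MP_c20ce7_lab.B_STD
import Pool.Agent.Work.MP_c20ce7_lab.B_MPT
import Pool.Agent.Work.MP_c20ce7_dm29.EXP
import Pool.Agent.Work.MP_c20ce7_dm8.A6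
import Pool.Agent.Work.MP_c20ce7_dm82.OWN
import Pool.Agent.Work.MP_c20ce7_own2.OWN2

set_option autoImplicit false

/-!
# The base case: assembly of the target side

`base_of_src`: the Kashiwara-Saito pair from the module of the chart (`Stmt_SRC`).
-/

open MvPolynomial Matrix

noncomputable section

namespace Pool.DM

theorem stmt_EXP : Stmt_EXP :=
  fun _ _ _ _ _ _ _ φ hS h => hS.exists_point φ h

theorem stmt_OW2 : Stmt_OW2 :=
  fun _ _ _ _ e L _ _ W M hS hE h => lab_of_suppEq stmt_HST stmt_OWN e M L W hS hE h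

theorem stmt_TG : Stmt_TG :=
  p_TG (p_GEN p_MIN p_RNK p_EVM p_MPT) (p_IND p_MPT) stmt_EXP stmt_SCH stmt_HST p_STD

theorem stmt_TN : Stmt_TN := p_TN p_STD stmt_HST p_MPT

/-- The base case from the module of the chart. -/
theorem base_of_src : Stmt_SRC → Stmt_BASE := p_BAS stmt_TG stmt_TN stmt_OW2

end Pool.DM
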